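import Pool.Agent.W2helper75.FD.Stm

/-!
# Project FD: recurrence of a symmetric walk from capacity zero
-/

set_option autoImplicit false

open Filter Topology

namespace Pool.Agent.W2helper98.FD

open Pool.Agent.W2helper75.FD

section hitlemmas

variable {X S : Type} [Fintype S] (mx : X → S → X) (y : X)

theorem hit_self (n : ℕ) : hit mx y n y = 1 := by
  cases n <;> simp [hit]

theorem hit_zero_ne {x : X} (h : x ≠ y) : hit mx y 0 x = 0 := by
  simp [hit, h]

theorem hit_succ_ne {x : X} (h : x ≠ y) (n : ℕ) :
    hit mx y (n + 1) x = (∑ s, hit mx y n (mx x s)) / (Fintype.card S : ℝ) := by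
  simp [hit, h]

theorem hit_nonneg (n : ℕ) : ∀ x, 0 ≤ hit mx y n x := by
  induction n with
  | zero =>
    intro x
    by_cases h : x = y
    · rw [h, hit_self]
      exact zero_le_one
    · rw [hit_zero_ne mx y h]
  | succ n ih =>
    intro x
    by_cases h : x = y
    · rw [h, hit_self]
      exact zero_le_one
    · rw [hit_succ_ne mx y h]
      exact div_nonneg (Finset.sum_nonneg fun s _ => ih _) (Nat.cast_nonneg _)

theorem hit_mono_succ (n : ℕ) : ∀ x, hit mx y n x ≤ hit mx y (n + 1) x := by
  induction n with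
  | zero =>
    intro x
    by_cases h : x = y
    · rw [h, hit_self, hit_self]
    · rw [hit_zero_ne mx y h]
      exact hit_nonneg mx y _ x
  | succ n ih =>
    intro x
    by_cases h : x = y
    · rw [h, hit_self, hit_self]
    · rw [hit_succ_ne mx y h, hit_succ_ne mx y h]
      exact div_le_div_of_nonneg_right (Finset.sum_le_sum fun s _ => ih _) (Nat.cast_nonneg _)

variable [Nonempty S]

theorem card_pos' : (0 : ℝ) < (Fintype.card S : ℝ) := by
  exact_mod_cast Fintype.card_pos

theorem hit_le_one (n : ℕ) : ∀ x, hit mx y n x ≤ 1 := by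
  induction n with
  | zero =>
    intro x
    by_cases h : x = y
    · rw [h, hit_self]
    · rw [hit_zero_ne mx y h]
      exact zero_le_one
  | succ n ih =>
    intro x
    by_cases h : x = y
    · rw [h, hit_self]
    · rw [hit_succ_ne mx y h, div_le_one (card_pos' (S := S))]
      calc ∑ s, hit mx y n (mx x s) ≤ ∑ _s : S, (1 : ℝ) := Finset.sum_le_sum fun s _ => ih _
        _ = (Fintype.card S : ℝ) := by simp

end hitlemmas

section green

variable {X S : Type} [Fintype S] {mx : X → S → X} {inv : S → S}

theorem fin_pre (hmx : ∀ x s, mx (mx x s) (inv s) = x) {A : Set X} (hA : A.Finite) (s : S) :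
    {x | mx x s ∈ A}.Finite := by
  refine (hA.image fun z => mx z (inv s)).subset ?_
  intro x hx
  exact ⟨mx x s, hx, hmx x s⟩

theorem hit_fin (hmx : ∀ x s, mx (mx x s) (inv s) = x) (y : X) (n : ℕ) :
    (Function.support (hit mx y n)).Finite := by
  induction n with
  | zero =>
    refine (Set.finite_singleton y).subset ?_
    intro x hx
    by_contra h
    exact hx (hit_zero_ne mx y h)
  | succ n ih =>
    have h1 : (⋃ s : S, {x | mx x s ∈ Function.support (hit mx y n)}).Finite :=
      Set.finite_iUnion fun s => fin_pre hmx ih s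
    refine ((Set.finite_singleton y).union h1).subset ?_
    intro x hx
    by_cases h : x = y
    · exact Or.inl h
    · right
      rw [Set.mem_iUnion]
      by_contra hc
      push Not at hc
      apply hx
      rw [hit_succ_ne mx y h, Finset.sum_eq_zero fun s _ => ?_, zero_div]
      have h2 := hc s
      simpa using h2

/-- the involution of the oriented edges -/
def flip (hi : ∀ s, inv (inv s) = s) (hmx : ∀ x s, mx (mx x s) (inv s) = x) : X × S ≃ X × S where
  toFun p := (mx p.1 p.2, inv p.2)
  invFun p := (mx p.1 p.2, inv p.2)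
  left_inv p := by
    apply Prod.ext
    · exact hmx p.1 p.2
    · exact hi p.2
  right_inv p := by
    apply Prod.ext
    · exact hmx p.1 p.2
    · exact hi p.2

/-- the gradient -/
def gr (mx : X → S → X) (f : X → ℝ) (p : X × S) : ℝ := f p.1 - f (mx p.1 p.2)

/-- the energy form -/
noncomputable def En (mx : X → S → X) (f g : X → ℝ) : ℝ := ∑ᶠ p : X × S, gr mx f p * gr mx g p

theorem fin_fst {f : X → ℝ} (hf : (Function.support f).Finite) (h : X × S → ℝ) :
    (Function.support fun p : X × S => f p.1 * h p).Finite := by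
  refine (hf.prod (Set.finite_univ : (Set.univ : Set S).Finite)).subset ?_
  intro p hp
  refine ⟨?_, trivial⟩
  intro h0
  apply hp
  show f p.1 * h p = 0
  rw [h0, zero_mul]

theorem fin_snd (hi : ∀ s, inv (inv s) = s) (hmx : ∀ x s, mx (mx x s) (inv s) = x) {f : X → ℝ}
    (hf : (Function.support f).Finite) (h : X × S → ℝ) :
    (Function.support fun p : X × S => f (mx p.1 p.2) * h p).Finite := by
  refine ((hf.prod (Set.finite_univ : (Set.univ : Set S).Finite)).preimage
    ((flip hi hmx).injective.injOn)).subset ?_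
  intro p hp
  refine ⟨?_, trivial⟩
  intro h0
  apply hp
  show f (mx p.1 p.2) * h p = 0
  have h1 : f (mx p.1 p.2) = 0 := h0
  rw [h1, zero_mul]

theorem fin_gr (hi : ∀ s, inv (inv s) = s) (hmx : ∀ x s, mx (mx x s) (inv s) = x) {f : X → ℝ}
    (hf : (Function.support f).Finite) : (Function.support (gr mx f)).Finite := by
  have h1 := fin_fst (S := S) hf fun _ => 1
  have h2 := fin_snd hi hmx hf fun _ => 1
  refine (h1.union h2).subset ?_
  intro p hp
  by_contra hc
  rw [Set.mem_union, not_or, Function.notMem_support, Function.notMem_support, mul_one,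
    mul_one] at hc
  apply hp
  unfold gr
  rw [hc.1, hc.2, sub_zero]

/-- Green's formula -/
theorem green (hi : ∀ s, inv (inv s) = s) (hmx : ∀ x s, mx (mx x s) (inv s) = x) {f : X → ℝ}
    (hf : (Function.support f).Finite) (g : X → ℝ) :
    En mx f g = 2 * ∑ x ∈ hf.toFinset, f x * ((Fintype.card S : ℝ) * g x - ∑ s, g (mx x s)) := by
  have h1 : En mx f g = ∑ᶠ p : X × S, f p.1 * gr mx g p -
      ∑ᶠ p : X × S, f (mx p.1 p.2) * gr mx g p := by
    rw [← finsum_sub_distrib (fin_fst hf _) (fin_snd hi hmx hf _)]
    unfold En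
    apply finsum_congr
    intro p
    unfold gr
    ring
  have h2 : ∑ᶠ p : X × S, f (mx p.1 p.2) * gr mx g p = - ∑ᶠ p : X × S, f p.1 * gr mx g p := by
    rw [← finsum_comp_equiv (flip hi hmx) (f := fun p : X × S => f p.1 * gr mx g p),
      ← finsum_neg_distrib]
    apply finsum_congr
    intro p
    show f (mx p.1 p.2) * gr mx g p = -(f (mx p.1 p.2) * gr mx g (mx p.1 p.2, inv p.2))
    unfold gr
    simp only
    rw [hmx p.1 p.2]
    ring
  have h3 : ∑ᶠ p : X × S, f p.1 * gr mx g p =
      ∑ x ∈ hf.toFinset, f x * ((Fintype.card S : ℝ) * g x - ∑ s, g (mx x s)) := by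
    rw [finsum_eq_sum_of_support_subset (s := hf.toFinset ×ˢ (Finset.univ : Finset S))]
    · rw [Finset.sum_product]
      apply Finset.sum_congr rfl
      intro x _
      change ∑ s, f x * (g x - g (mx x s)) = _
      rw [← Finset.mul_sum, Finset.sum_sub_distrib, Finset.sum_const, Finset.card_univ,
        nsmul_eq_mul]
    · intro p hp
      rw [Finset.mem_coe, Finset.mem_product]
      refine ⟨?_, Finset.mem_univ _⟩
      rw [Set.Finite.mem_toFinset]
      intro h0
      apply hp
      show f p.1 * gr mx g p = 0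
      rw [h0, zero_mul]
  rw [h1, h2, h3]
  ring

theorem en_le (hi : ∀ s, inv (inv s) = s) (hmx : ∀ x s, mx (mx x s) (inv s) = x) {f g : X → ℝ}
    (hf : (Function.support f).Finite) (hg : (Function.support g).Finite) {θ : ℝ} (hθ : 0 < θ) :
    En mx f g ≤ (En mx f f / θ + θ * En mx g g) / 2 := by
  classical
  let B : Finset (X × S) := (fin_gr hi hmx hf).toFinset ∪ (fin_gr hi hmx hg).toFinset
  have hB : ∀ (a b : X × S → ℝ), (∀ p, p ∉ B → a p * b p = 0) →
      ∑ᶠ p, a p * b p = ∑ p ∈ B, a p * b p := by
    intro a b h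
    apply finsum_eq_sum_of_support_subset
    intro p hp
    by_contra hc
    exact hp (h p hc)
  have hout : ∀ p, p ∉ B → gr mx f p = 0 ∧ gr mx g p = 0 := by
    intro p hp
    rw [Finset.mem_union, not_or, Set.Finite.mem_toFinset, Set.Finite.mem_toFinset,
      Function.notMem_support, Function.notMem_support] at hp
    exact hp
  unfold En
  rw [hB _ _ fun p hp => by rw [(hout p hp).1, zero_mul],
    hB _ _ fun p hp => by rw [(hout p hp).1, zero_mul],
    hB _ _ fun p hp => by rw [(hout p hp).2, zero_mul], Finset.sum_div, Finset.mul_sum,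
    ← Finset.sum_add_distrib, Finset.sum_div]
  apply Finset.sum_le_sum
  intro p _
  have h1 : 0 ≤ (gr mx f p - θ * gr mx g p) ^ 2 / θ := div_nonneg (sq_nonneg _) hθ.le
  have h2 : (gr mx f p - θ * gr mx g p) ^ 2 / θ = gr mx f p * gr mx f p / θ +
      θ * (gr mx g p * gr mx g p) - 2 * (gr mx f p * gr mx g p) := by
    field_simp
    ring
  linarith

theorem en_le_of (hi : ∀ s, inv (inv s) = s) (hmx : ∀ x s, mx (mx x s) (inv s) = x) {f : X → ℝ}
    (hf : (Function.support f).Finite) {ε : ℝ}
    (h : ∀ A : Finset X, ∑ x ∈ A, ∑ s, (f x - f (mx x s)) ^ 2 ≤ ε) : En mx f f ≤ ε := by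
  classical
  have h1 : En mx f f = ∑ p ∈ ((fin_gr hi hmx hf).toFinset.image Prod.fst) ×ˢ
      (Finset.univ : Finset S), gr mx f p * gr mx f p := by
    unfold En
    apply finsum_eq_sum_of_support_subset
    intro p hp
    rw [Finset.mem_coe, Finset.mem_product]
    refine ⟨?_, Finset.mem_univ _⟩
    rw [Finset.mem_image]
    refine ⟨p, ?_, rfl⟩
    rw [Set.Finite.mem_toFinset]
    intro h0
    apply hp
    show gr mx f p * gr mx f p = 0
    rw [h0, zero_mul]
  rw [h1, Finset.sum_product]
  refine le_trans (le_of_eq ?_) (h ((fin_gr hi hmx hf).toFinset.image Prod.fst))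
  apply Finset.sum_congr rfl
  intro x _
  apply Finset.sum_congr rfl
  intro s _
  unfold gr
  ring

end green

theorem recur : P_REC := by
  classical
  intro X S _ _ mx inv hi hmx hconn y hcap x
  set D : ℝ := (Fintype.card S : ℝ) with hD
  have hDpos : 0 < D := card_pos' (S := S)
  have hD1 : 1 ≤ D := by
    rw [hD]
    exact_mod_cast Fintype.card_pos (α := S)
  -- the limit
  have hmono : ∀ x, Monotone fun n => hit mx y n x := fun x =>
    monotone_nat_of_le_succ fun n => hit_mono_succ mx y n x
  have hlim : ∀ x, ∃ V : ℝ, Tendsto (fun n => hit mx y n x) atTop (𝓝 V) ∧ V ≤ 1 := by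
    intro x
    have hb : BddAbove (Set.range fun n => hit mx y n x) := by
      refine ⟨1, ?_⟩
      rintro _ ⟨n, rfl⟩
      exact hit_le_one mx y n x
    refine ⟨_, tendsto_atTop_ciSup (hmono x) hb, ?_⟩
    exact ciSup_le fun n => hit_le_one mx y n x
  choose V hV hV1 using hlim
  -- energy of the hitting probabilities
  have hnon : ∀ n x, x ≠ y → D * hit mx y n x - ∑ s, hit mx y n (mx x s) =
      D * (hit mx y n x - hit mx y (n + 1) x) := by
    intro n x hx
    rw [hit_succ_ne mx y hx, mul_sub, mul_div_cancel₀ _ hDpos.ne']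
  have hvv : ∀ n, En mx (hit mx y n) (hit mx y n) ≤ 2 * D := by
    intro n
    rw [green hi hmx (hit_fin hmx y n)]
    have h1 : ∑ x ∈ (hit_fin hmx y n).toFinset, hit mx y n x *
        ((Fintype.card S : ℝ) * hit mx y n x - ∑ s, hit mx y n (mx x s)) ≤
        ∑ x ∈ (hit_fin hmx y n).toFinset, if x = y then D else 0 := by
      apply Finset.sum_le_sum
      intro x _
      by_cases hx : x = y
      · rw [if_pos hx, hx, hit_self, one_mul, mul_one]
        have h2 : 0 ≤ ∑ s, hit mx y n (mx y s) := Finset.sum_nonneg fun s _ => hit_nonneg mx y n _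
        linarith
      · rw [if_neg hx, hnon n x hx]
        have h2 := hit_mono_succ mx y n x
        have h3 := hit_nonneg mx y n x
        have h4 : 0 ≤ hit mx y n x * (D * (hit mx y (n + 1) x - hit mx y n x)) :=
          mul_nonneg h3 (mul_nonneg hDpos.le (by linarith))
        have h5 : hit mx y n x * (D * (hit mx y n x - hit mx y (n + 1) x)) =
            - (hit mx y n x * (D * (hit mx y (n + 1) x - hit mx y n x))) := by ring
        linarith
    have h2 : ∑ x ∈ (hit_fin hmx y n).toFinset, (if x = y then D else 0) ≤ D := by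
      rw [Finset.sum_ite_eq' (hit_fin hmx y n).toFinset y fun _ => D]
      split_ifs
      · exact le_rfl
      · exact hDpos.le
    linarith
  -- the escape probability
  have hesc : ∀ ε : ℝ, 0 < ε → D - ∑ s, V (mx y s) ≤ D * ε := by
    intro ε hε
    obtain ⟨f, hfy, hf0, hf1, hfs, hfE⟩ := hcap (ε ^ 2) (by positivity)
    have hff : En mx f f ≤ ε ^ 2 := en_le_of hi hmx hfs hfE
    have hyA : y ∈ hfs.toFinset := by
      rw [Set.Finite.mem_toFinset, Function.mem_support, hfy]
      exact one_ne_zero
    have hn : ∀ n, D - ∑ s, hit mx y n (mx y s) ≤ D * ε +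
        D * ∑ x ∈ hfs.toFinset, f x * (hit mx y (n + 1) x - hit mx y n x) := by
      intro n
      have h1 := green hi hmx hfs (hit mx y n)
      have h2 := en_le hi hmx hfs (hit_fin hmx y n) hε
      have h3 : (En mx f f / ε + ε * En mx (hit mx y n) (hit mx y n)) / 2 ≤
          (ε + ε * (2 * D)) / 2 := by
        have h4 : En mx f f / ε ≤ ε := by
          rw [div_le_iff₀ hε]
          calc En mx f f ≤ ε ^ 2 := hff
            _ = ε * ε := by ring
        have h5 := mul_le_mul_of_nonneg_left (hvv n) hε.le
        linarith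
      have h6 : ∑ x ∈ hfs.toFinset, f x *
          ((Fintype.card S : ℝ) * hit mx y n x - ∑ s, hit mx y n (mx x s)) =
          (D - ∑ s, hit mx y n (mx y s)) -
          D * ∑ x ∈ hfs.toFinset, f x * (hit mx y (n + 1) x - hit mx y n x) := by
        rw [← Finset.add_sum_erase _ _ hyA, ← Finset.add_sum_erase _
          (fun x => f x * (hit mx y (n + 1) x - hit mx y n x)) hyA, hfy, hit_self, hit_self,
          Finset.sum_congr rfl (g := fun x => -(D * (f x *
            (hit mx y (n + 1) x - hit mx y n x)))) fun x hx => ?_, Finset.sum_neg_distrib,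
          ← Finset.mul_sum]
        · ring
        · have hne : x ≠ y := (Finset.mem_erase.mp hx).1
          rw [hnon n x hne]
          ring
      rw [h6] at h1
      have h7 : (ε + ε * (2 * D)) / 2 ≤ 2 * (D * ε) := by nlinarith
      linarith
    have hL : Tendsto (fun n => D - ∑ s, hit mx y n (mx y s)) atTop
        (𝓝 (D - ∑ s, V (mx y s))) :=
      tendsto_const_nhds.sub (tendsto_finsetSum _ fun s _ => hV (mx y s))
    have hR : Tendsto (fun n => D * ε +
        D * ∑ x ∈ hfs.toFinset, f x * (hit mx y (n + 1) x - hit mx y n x)) atTop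
        (𝓝 (D * ε + D * ∑ x ∈ hfs.toFinset, f x * (V x - V x))) := by
      refine tendsto_const_nhds.add (Tendsto.const_mul D (tendsto_finsetSum _ fun x _ => ?_))
      exact Tendsto.const_mul _ ((((tendsto_add_atTop_iff_nat 1).mpr (hV x))).sub (hV x))
    have h8 := le_of_tendsto_of_tendsto' hL hR hn
    simpa using h8
  have hsum : ∑ s, V (mx y s) = D := by
    apply le_antisymm
    · calc ∑ s, V (mx y s) ≤ ∑ _s : S, (1 : ℝ) := Finset.sum_le_sum fun s _ => hV1 _
        _ = D := by simp [hD]
    · by_contra hc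
      push Not at hc
      have h1 := hesc ((D - ∑ s, V (mx y s)) / (2 * D)) (by
        apply div_pos <;> linarith)
      have h2 : D * ((D - ∑ s, V (mx y s)) / (2 * D)) = (D - ∑ s, V (mx y s)) / 2 := by
        field_simp
      rw [h2] at h1
      linarith
  -- harmonicity
  have hVy : V y = 1 := by
    refine tendsto_nhds_unique (hV y) ?_
    simp only [hit_self]
    exact tendsto_const_nhds
  have hharm : ∀ x, ∑ s, V (mx x s) = D * V x := by
    intro x
    by_cases hx : x = y
    · rw [hx, hsum, hVy, mul_one]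
    · have h1 : Tendsto (fun n => D * hit mx y (n + 1) x) atTop (𝓝 (D * V x)) :=
        Tendsto.const_mul _ ((tendsto_add_atTop_iff_nat 1).mpr (hV x))
      have h2 : Tendsto (fun n => ∑ s, hit mx y n (mx x s)) atTop (𝓝 (∑ s, V (mx x s))) :=
        tendsto_finsetSum _ fun s _ => hV (mx x s)
      have h3 : (fun n => D * hit mx y (n + 1) x) = fun n => ∑ s, hit mx y n (mx x s) := by
        funext n
        rw [hit_succ_ne mx y hx, mul_div_cancel₀ _ hDpos.ne']
      rw [h3] at h1
      exact tendsto_nhds_unique h2 h1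
  have hstep : ∀ x, V x = 1 → ∀ s, V (mx x s) = 1 := by
    intro x hx s
    have h1 := hharm x
    rw [hx, mul_one] at h1
    have h2 : ∑ s, (1 - V (mx x s)) = 0 := by
      rw [Finset.sum_sub_distrib, h1]
      simp [hD]
    have h3 := (Finset.sum_eq_zero_iff_of_nonneg fun s _ => by
      have := hV1 (mx x s)
      linarith).mp h2 s (Finset.mem_univ s)
    linarith
  have hpath : ∀ (c : ℕ → S) (k : ℕ), V (pth mx y c k) = 1 := by
    intro c k
    induction k with
    | zero => exact hVy
    | succ k ih => exact hstep _ ih _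
  obtain ⟨c, k, hck⟩ := hconn y x
  have h1 := hpath c k
  rw [hck] at h1
  rw [← h1]
  exact hV x

end Pool.Agent.W2helper98.FD
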