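import Pool.Agent.W2helper75.FD.Stm4
import Mathlib

/-!
# Piece KRO: Kronecker's theorem for integer matrices
-/

set_option autoImplicit false

namespace Pool.Agent.W2helper98.FD

open Pool.Agent.W2helper75.FD

/-- a root of the characteristic polynomial is an eigenvalue -/
lemma eig_of_root {m : ℕ} (M : Matrix (Fin m) (Fin m) ℂ) (μ : ℂ)
    (h : M.charpoly.eval μ = 0) : ∃ w : Fin m → ℂ, w ≠ 0 ∧ M.mulVec w = μ • w := by
  rw [Matrix.eval_charpoly] at h
  obtain ⟨w, hw, he⟩ := Matrix.exists_mulVec_eq_zero_iff.mpr h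
  refine ⟨w, hw, ?_⟩
  rw [Matrix.sub_mulVec] at he
  have h1 : (Matrix.scalar (Fin m) μ).mulVec w = μ • w := by
    ext i
    simp [Matrix.scalar_apply, Matrix.mulVec_diagonal]
  rw [h1] at he
  exact (sub_eq_zero.mp he).symm

/-- powers act on eigenvectors -/
lemma pow_eig {m : ℕ} (M : Matrix (Fin m) (Fin m) ℂ) (μ : ℂ) (w : Fin m → ℂ)
    (h : M.mulVec w = μ • w) (n : ℕ) : (M ^ n).mulVec w = μ ^ n • w := by
  induction n with
  | zero => simp
  | succ n ih =>
      rw [pow_succ, ← Matrix.mulVec_mulVec, h, Matrix.mulVec_smul, ih, smul_smul, pow_succ,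
        mul_comm]

theorem kro : P_KRO := by
  intro m A hm hdet
  by_cases hall : ∃ (μ : ℂ) (w : Fin m → ℂ), w ≠ 0 ∧ μ ≠ 0 ∧ ‖μ‖ ≠ 1 ∧
    (A.map (Int.cast : ℤ → ℂ)).mulVec w = μ • w
  · exact Or.inr hall
  left
  set M : Matrix (Fin m) (Fin m) ℂ := A.map (Int.cast : ℤ → ℂ) with hM
  have hMd : M.det = ((A.det : ℤ) : ℂ) := by
    have := (Int.castRingHom ℂ).map_det A
    simpa [hM, RingHom.mapMatrix_apply] using this.symm
  have hMne : M.det ≠ 0 := by
    rw [hMd]
    exact_mod_cast hdet.ne_zero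
  -- every root of the characteristic polynomial has absolute value one
  have hroot : ∀ μ : ℂ, M.charpoly.eval μ = 0 → ‖μ‖ = 1 := by
    intro μ hμ
    obtain ⟨w, hw, he⟩ := eig_of_root M μ hμ
    by_contra hne
    refine hall ⟨μ, w, hw, ?_, hne, he⟩
    rintro rfl
    rw [zero_smul] at he
    exact hMne (Matrix.exists_mulVec_eq_zero_iff.mp ⟨w, hw, he⟩)
  -- a root
  have hdeg : M.charpoly.degree ≠ 0 := by
    rw [Matrix.charpoly_degree_eq_dim]
    simp only [Fintype.card_fin]
    exact_mod_cast hm.ne'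
  obtain ⟨μ, hμ⟩ := IsAlgClosed.exists_root M.charpoly hdeg
  have hμ' : M.charpoly.eval μ = 0 := hμ
  have hmap : M.charpoly = A.charpoly.map (Int.castRingHom ℂ) := by
    have := Matrix.charpoly_map A (Int.castRingHom ℂ)
    simpa [hM] using this
  have haev : Polynomial.aeval μ A.charpoly = 0 := by
    rw [Polynomial.aeval_def, ← Polynomial.eval_map]
    have : algebraMap ℤ ℂ = Int.castRingHom ℂ := by ext; simp
    rw [this, ← hmap]
    exact hμ'
  have hint : IsIntegral ℤ μ := ⟨A.charpoly, Matrix.charpoly_monic A, by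
    rw [← Polynomial.aeval_def]; exact haev⟩
  have hintQ : IsIntegral ℚ μ := hint.tower_top
  have : FiniteDimensional ℚ (IntermediateField.adjoin ℚ {μ}) :=
    IntermediateField.adjoin.finiteDimensional hintQ
  have : NumberField (IntermediateField.adjoin ℚ {μ}) := ⟨⟩
  set x : IntermediateField.adjoin ℚ {μ} := IntermediateField.AdjoinSimple.gen ℚ μ with hx
  have hxμ : (algebraMap (IntermediateField.adjoin ℚ {μ}) ℂ) x = μ :=
    IntermediateField.AdjoinSimple.algebraMap_gen ℚ μ
  have hinj : Function.Injective (algebraMap (IntermediateField.adjoin ℚ {μ}) ℂ) :=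
    (algebraMap (IntermediateField.adjoin ℚ {μ}) ℂ).injective
  have hxa : Polynomial.eval₂ (Int.castRingHom (IntermediateField.adjoin ℚ {μ})) x
      A.charpoly = 0 := by
    apply hinj
    rw [map_zero, Polynomial.hom_eval₂, hxμ]
    have h2 : (algebraMap (IntermediateField.adjoin ℚ {μ}) ℂ).comp
        (Int.castRingHom (IntermediateField.adjoin ℚ {μ})) = Int.castRingHom ℂ :=
      RingHom.ext_int _ _
    rw [h2, ← Polynomial.eval_map, ← hmap]
    exact hμ'
  have hxint : IsIntegral ℤ x := ⟨A.charpoly, Matrix.charpoly_monic A, by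
    have : algebraMap ℤ (IntermediateField.adjoin ℚ {μ}) =
        Int.castRingHom (IntermediateField.adjoin ℚ {μ}) := RingHom.ext_int _ _
    rw [this]; exact hxa⟩
  obtain ⟨n, hn, hxn⟩ := NumberField.Embeddings.pow_eq_one_of_norm_eq_one
    (IntermediateField.adjoin ℚ {μ}) ℂ hxint (by
      intro φ
      apply hroot
      rw [hmap, Polynomial.eval_map]
      have h2 : φ.comp (Int.castRingHom (IntermediateField.adjoin ℚ {μ})) =
          Int.castRingHom ℂ := RingHom.ext_int _ _
      rw [← h2, ← Polynomial.hom_eval₂, hxa, map_zero])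
  have hμn : μ ^ n = 1 := by
    rw [← hxμ, ← map_pow, hxn, map_one]
  obtain ⟨w, hw, he⟩ := eig_of_root M μ hμ'
  have hpw : (M ^ n).mulVec w = w := by
    rw [pow_eig M μ w he n, hμn, one_smul]
  have hdet0 : (M ^ n - 1).det = 0 := by
    apply Matrix.exists_mulVec_eq_zero_iff.mp
    exact ⟨w, hw, by rw [Matrix.sub_mulVec, hpw, Matrix.one_mulVec, sub_self]⟩
  have hdetZ : (A ^ n - 1).det = 0 := by
    have h3 : M ^ n - 1 = (Int.castRingHom ℂ).mapMatrix (A ^ n - 1) := by
      rw [map_sub, map_pow, map_one]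
      rfl
    rw [h3, ← RingHom.map_det] at hdet0
    have h4 : (((A ^ n - 1).det : ℤ) : ℂ) = 0 := hdet0
    exact_mod_cast h4
  obtain ⟨v, hv, hve⟩ := Matrix.exists_mulVec_eq_zero_iff.mpr hdetZ
  refine ⟨n, hn, v, hv, ?_⟩
  rw [Matrix.sub_mulVec, Matrix.one_mulVec] at hve
  exact sub_eq_zero.mp hve

end Pool.Agent.W2helper98.FD
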