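import Pool.Agent.W2helper75.FD.Stm3
import Pool.Agent.W2helper66.FD.Osc

/-!
# Project FD, piece OSC3
-/

set_option autoImplicit false

open MeasureTheory ProbabilityTheory Filter Topology
open scoped ENNReal NNReal

namespace Pool.Agent.W2helper98.FD

open Pool.Agent.W2helper75.FD
open Pool.Agent.W2helper66.FD (ct ct_lip ct_zero exists_word exists_pth)

section

variable {Γ : Type} [Group Γ] {S : Finset Γ} {H : Subgroup Γ} {h : Γ → ℤ} {b : Γ → ℝ} {θ : ℝ}
  {D : ℕ} {t : Γ}

theorem h_one (hs : Sys S H h b θ D t) : h 1 = 0 := by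
  have := hs.h_mul 1 H.one_mem 1
  rw [mul_one] at this
  omega

theorem h_zpow (hs : Sys S H h b θ D t) (n : ℤ) : h (t ^ n) = n := by
  have hnat : ∀ n : ℕ, h (t ^ n) = n := by
    intro n
    induction n with
    | zero => simp [h_one hs]
    | succ n ih => rw [pow_succ', hs.h_mul t hs.t_mem, ih, hs.ht]; push_cast; ring
  obtain ⟨m, rfl | rfl⟩ := n.eq_nat_or_neg
  · rw [zpow_natCast, hnat]
  · have h1 := hs.h_mul (t ^ m) (H.pow_mem hs.t_mem m) (t ^ (-(m : ℤ)))
    rw [← zpow_natCast t m, ← zpow_add, add_neg_cancel, zpow_zero, h_one hs, zpow_natCast,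
      hnat] at h1
    omega

/-- the state of an element -/
def st (H : Subgroup Γ) (h : Γ → ℤ) (g : Γ) : Quotient (QuotientGroup.rightRel H) × ℤ :=
  (Quotient.mk _ g, h g)

theorem st_surj (hs : Sys S H h b θ D t) : Function.Surjective (st H h) := by
  rintro ⟨q, m⟩
  obtain ⟨g, rfl⟩ := Quotient.exists_rep q
  refine ⟨t ^ (m - h g) * g, ?_⟩
  have hm : t ^ (m - h g) ∈ H := H.zpow_mem hs.t_mem _
  refine Prod.ext ?_ ?_
  · refine Quotient.sound ?_
    show QuotientGroup.rightRel H (t ^ (m - h g) * g) g
    rw [QuotientGroup.rightRel_apply]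
    have : g * (t ^ (m - h g) * g)⁻¹ = (t ^ (m - h g))⁻¹ := by group
    rw [this]
    exact H.inv_mem hm
  · show h (t ^ (m - h g) * g) = m
    rw [hs.h_mul _ hm, h_zpow hs]
    ring

theorem st_step (hs : Sys S H h b θ D t) {g g' : Γ} (e : st H h g = st H h g') (s : Γ) :
    st H h (g * s) = st H h (g' * s) := by
  have e1 : Quotient.mk (QuotientGroup.rightRel H) g = Quotient.mk _ g' := congrArg Prod.fst e
  have e2 : h g = h g' := congrArg Prod.snd e
  have e3 : QuotientGroup.rightRel H g g' := Quotient.exact e1
  rw [QuotientGroup.rightRel_apply] at e3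
  have h1 : h g' = h (g' * g⁻¹) + h g := by
    rw [← hs.h_mul _ e3]
    congr 1
    group
  refine Prod.ext ?_ ?_
  · refine Quotient.sound ?_
    show QuotientGroup.rightRel H (g * s) (g' * s)
    rw [QuotientGroup.rightRel_apply]
    have : g' * s * (g * s)⁻¹ = g' * g⁻¹ := by group
    rw [this]
    exact e3
  · show h (g * s) = h (g' * s)
    have h2 : h (g' * s) = h (g' * g⁻¹) + h (g * s) := by
      rw [← hs.h_mul _ e3]
      congr 1
      group
    omega

end

theorem osc3 (h1 : P_REC) (h2 : P_WLK) : P_OSC3 := by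
  intro Γ _ S _ _ _ H h b θ D t hs g K
  classical
  let X := Quotient (QuotientGroup.rightRel H) × ℤ
  have hfin : Finite (Quotient (QuotientGroup.rightRel H)) := by
    have := hs.fin
    have : Finite (Γ ⧸ H) := Subgroup.finite_quotient_of_finiteIndex
    exact Finite.of_equiv _ (QuotientGroup.quotientRightRelEquivQuotientLeftRel H).symm
  let _ : Fintype (Quotient (QuotientGroup.rightRel H)) := Fintype.ofFinite _
  let mx : X → S → X := fun x s => st H h (Function.surjInv (st_surj hs) x * (s : Γ))
  let inv : S → S := fun s => ⟨(s : Γ)⁻¹, hs.sym _ s.2⟩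
  have hmx : ∀ (g : Γ) (s : S), mx (st H h g) s = st H h (g * (s : Γ)) := by
    intro g s
    exact st_step hs (Function.surjInv_eq (st_surj hs) _) _
  have hfold : ∀ (l : List S) (g : Γ), l.foldl mx (st H h g) =
      st H h (g * (l.map (fun s : S => (s : Γ))).prod) := by
    intro l
    induction l with
    | nil => intro g; simp
    | cons s l ih =>
      intro g
      rw [List.foldl_cons, hmx, ih, List.map_cons, List.prod_cons, mul_assoc]
  have hpos : ∀ (c : ℕ → S) (n : ℕ), pth mx (st H h g) c n = st H h (g * pos c n) := by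
    intro c n
    induction n with
    | zero =>
      show st H h g = st H h (g * 1)
      rw [mul_one]
    | succ n ih =>
      change mx (pth mx (st H h g) c n) (c n) = st H h (g * (pth (mg S) 1 c n * (c n : Γ)))
      rw [ih, hmx, ← mul_assoc]
      rfl
  have hstep : ∀ (x : X) (s : S), |(mx x s).2 - x.2| ≤ (D : ℤ) := by
    intro x s
    obtain ⟨g, rfl⟩ := st_surj hs x
    rw [hmx]
    exact hs.h_step g s s.2
  set o : X := (Quotient.mk _ 1, -K) with ho
  set q : ℕ := Fintype.card (Quotient (QuotientGroup.rightRel H)) with hq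
  have hrec := h1 X S mx inv
    (by intro s; apply Subtype.ext; simp [inv])
    (by
      intro x s
      obtain ⟨g, rfl⟩ := st_surj hs x
      rw [hmx g s, hmx (g * (s : Γ)) (inv s)]
      simp [inv])
    (by
      intro x y
      obtain ⟨g, rfl⟩ := st_surj hs x
      obtain ⟨g', rfl⟩ := st_surj hs y
      obtain ⟨l, hl⟩ := exists_word S hs.sym hs.gen (g⁻¹ * g')
      obtain ⟨c, k, hck⟩ := exists_pth mx (st H h g) l
      refine ⟨c, k, ?_⟩
      rw [hck, hfold, hl, mul_inv_cancel_left])
    o
    (by
      intro ε hε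
      obtain ⟨R, hR⟩ : ∃ R : ℕ,
          max ((D : ℝ) + 1) (4 * (q : ℝ) * (Fintype.card S : ℝ) * D ^ 2 / ε) ≤ R :=
        exists_nat_ge _
      have hR1 : (D : ℝ) + 1 ≤ R := (le_max_left _ _).trans hR
      have hR2 : 4 * (q : ℝ) * (Fintype.card S : ℝ) * D ^ 2 / ε ≤ R := (le_max_right _ _).trans hR
      have hL0 : (0 : ℝ) ≤ D := Nat.cast_nonneg D
      have hR0 : (0 : ℝ) < R := by linarith
      refine ⟨fun x => ct (-K) R x.2, ?_, ?_, ?_, ?_, ?_⟩
      · simp only [ho]
        unfold ct
        simp
      · intro x
        exact le_max_left _ _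
      · intro x
        simp only
        unfold ct
        apply max_le zero_le_one
        have : 0 ≤ |(x.2 : ℝ) - ((-K : ℤ) : ℝ)| / R := by positivity
        linarith
      · apply (Set.finite_univ.prod (Set.finite_Icc (-K - R : ℤ) (-K + R))).subset
        intro x hx
        refine ⟨Set.mem_univ _, ?_⟩
        by_contra hcon
        apply hx
        apply ct_zero _ _ hR0
        rw [Set.mem_Icc, not_and_or] at hcon
        have h4 : (R : ℤ) ≤ |x.2 - (-K)| := by
          rcases hcon with h5 | h5
          · push Not at h5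
            rw [le_abs]
            right
            omega
          · push Not at h5
            rw [le_abs]
            left
            omega
        exact_mod_cast h4
      · intro A
        set I : Finset X := (Finset.univ : Finset (Quotient (QuotientGroup.rightRel H))) ×ˢ
          Finset.Icc (-K - (R + D) : ℤ) (-K + (R + D)) with hI
        have hzero : ∀ x : X, x ∉ I → ∀ s : S,
            (ct (-K) R x.2 - ct (-K) R (mx x s).2) ^ 2 = 0 := by
          intro x hx s
          have h4 : (R : ℤ) + D ≤ |x.2 - (-K)| := by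
            rw [hI, Finset.mem_product, not_and_or, Finset.mem_Icc, not_and_or] at hx
            rcases hx with h5 | h5 | h5
            · exact absurd (Finset.mem_univ _) h5
            · push Not at h5
              rw [le_abs]
              right
              omega
            · push Not at h5
              rw [le_abs]
              left
              omega
          have h5 := hstep x s
          have h6 : (R : ℤ) ≤ |(mx x s).2 - (-K)| := by
            rw [abs_le] at h5
            rw [le_abs] at h4 ⊢
            omega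
          have h4' : (R : ℝ) + D ≤ |(x.2 : ℝ) - ((-K : ℤ) : ℝ)| := by exact_mod_cast h4
          have h6' : (R : ℝ) ≤ |((mx x s).2 : ℝ) - ((-K : ℤ) : ℝ)| := by exact_mod_cast h6
          rw [ct_zero _ _ hR0 x.2 (by linarith), ct_zero _ _ hR0 (mx x s).2 h6']
          norm_num
        have hterm : ∀ x : X, ∀ s : S,
            (ct (-K) R x.2 - ct (-K) R (mx x s).2) ^ 2 ≤ ((D : ℝ) / R) ^ 2 := by
          intro x s
          rw [← sq_abs]
          apply pow_le_pow_left₀ (abs_nonneg _)
          have h7 := ct_lip (-K) R hR0 x.2 ((mx x s).2 - x.2)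
          rw [add_sub_cancel] at h7
          refine h7.trans ?_
          apply div_le_div_of_nonneg_right _ hR0.le
          exact_mod_cast hstep x s
        calc ∑ x ∈ A, ∑ s : S, (ct (-K) R x.2 - ct (-K) R (mx x s).2) ^ 2
            ≤ ∑ x ∈ I, ∑ s : S, (ct (-K) R x.2 - ct (-K) R (mx x s).2) ^ 2 := by
              calc ∑ x ∈ A, ∑ s : S, (ct (-K) R x.2 - ct (-K) R (mx x s).2) ^ 2
                  ≤ ∑ x ∈ A ∪ I, ∑ s : S, (ct (-K) R x.2 - ct (-K) R (mx x s).2) ^ 2 := by
                    apply Finset.sum_le_sum_of_subset_of_nonneg Finset.subset_union_left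
                    intro x _ _
                    exact Finset.sum_nonneg (fun _ _ => sq_nonneg _)
                _ = ∑ x ∈ I, ∑ s : S, (ct (-K) R x.2 - ct (-K) R (mx x s).2) ^ 2 := by
                    symm
                    apply Finset.sum_subset Finset.subset_union_right
                    intro x _ hx
                    exact Finset.sum_eq_zero (fun s _ => hzero x hx s)
          _ ≤ ∑ x ∈ I, ∑ s : S, ((D : ℝ) / R) ^ 2 :=
              Finset.sum_le_sum (fun x _ => Finset.sum_le_sum (fun s _ => hterm x s))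
          _ = (I.card : ℝ) * ((Fintype.card S : ℝ) * ((D : ℝ) / R) ^ 2) := by
              simp [Finset.sum_const]
          _ ≤ ((q : ℝ) * (4 * (R : ℝ))) * ((Fintype.card S : ℝ) * ((D : ℝ) / R) ^ 2) := by
              apply mul_le_mul_of_nonneg_right _ (by positivity)
              have h9 : (Finset.Icc (-K - (R + D) : ℤ) (-K + (R + D))).card ≤ 4 * R := by
                rw [Int.card_Icc]
                have h10 : (D : ℤ) + 1 ≤ R := by exact_mod_cast hR1
                omega
              have h11 : I.card ≤ q * (4 * R) := by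
                rw [hI, Finset.card_product, Finset.card_univ]
                exact Nat.mul_le_mul_left _ h9
              exact_mod_cast h11
          _ = 4 * (q : ℝ) * (Fintype.card S : ℝ) * D ^ 2 / R := by
              field_simp
          _ ≤ ε := by
              rw [div_le_iff₀ hε] at hR2
              rw [div_le_iff₀ hR0]
              linarith)
    (st H h g)
  have hw := h2 X S mx (st H h g) o hrec
  set N : Set (ℕ → S) := {c | ∀ k, pth mx (st H h g) c k ≠ o} with hN
  have hN0 : mlaw S N = 0 := by
    apply le_antisymm _ zero_le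
    apply le_of_forall_pos_le_add
    intro δ hδ
    obtain ⟨t0, ht0⟩ := hw δ hδ
    have h3 := ht0 t0 le_rfl
    rw [zero_add]
    refine le_trans ?_ h3
    have h4 : plaw S (Set.univ ×ˢ N) = mlaw S N := by
      unfold plaw
      rw [Measure.prod_prod, measure_univ, one_mul]
    rw [← h4]
    apply measure_mono
    rintro ⟨a, c⟩ ⟨_, hc⟩ ⟨k, _, hk⟩
    exact hc k hk
  have hcomp : mlaw S {c | ∃ n, h (g * pos c n) ≤ -K}ᶜ = 0 := by
    apply measure_mono_null _ hN0
    intro c hc k hk
    apply hc
    refine ⟨k, ?_⟩
    rw [hpos] at hk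
    have h5 : h (g * pos c k) = -K := congrArg Prod.snd hk
    exact h5.le
  apply le_antisymm prob_le_one
  calc (1 : ℝ≥0∞) = mlaw S Set.univ := measure_univ.symm
    _ = mlaw S ({c | ∃ n, h (g * pos c n) ≤ -K} ∪ {c | ∃ n, h (g * pos c n) ≤ -K}ᶜ) := by
        rw [Set.union_compl_self]
    _ ≤ mlaw S {c | ∃ n, h (g * pos c n) ≤ -K} + mlaw S {c | ∃ n, h (g * pos c n) ≤ -K}ᶜ :=
        measure_union_le _ _
    _ = mlaw S {c | ∃ n, h (g * pos c n) ≤ -K} := by rw [hcomp, add_zero]

end Pool.Agent.W2helper98.FD
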